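import Pool.Agent.Q62.SP.Stm
import Pool.Agent.H459R3.NS.Evo

/-!
Project SP, job 30: the time derivative of the energy.
-/

open MeasureTheory Set Filter Topology
open scoped ContDiff
open H459R3.NS (V pd Per cube integrableOn_cube cube_finite continuousOn_int hasDerivAt_int)

namespace Pool.Agent.Q137.SP

open Pool.Agent.Q62.SP

theorem cont_comp {f : V → V} (hf : Continuous f) (i : Fin 3) : Continuous (fun x => f x i) :=
  (continuous_apply i).comp hf

theorem int_ip {f g : V → V} (hf : Continuous f) (hg : Continuous g) :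
    IntegrableOn (fun x => ∑ i, f x i * g x i) cube :=
  integrableOn_cube (continuous_finsetSum _ fun i _ => (cont_comp hf i).mul (cont_comp hg i))

theorem ip_comm (f g : V → V) : ip f g = ip g f := by
  unfold ip
  refine integral_congr_ae (Filter.Eventually.of_forall fun x => ?_)
  exact Finset.sum_congr rfl fun i _ => mul_comm _ _

theorem ip_add_left {f g h : V → V} (hf : Continuous f) (hg : Continuous g) (hh : Continuous h) :
    ip (fun x => f x + g x) h = ip f h + ip g h := by
  unfold ip
  rw [← integral_add (int_ip hf hh) (int_ip hg hh)]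
  refine integral_congr_ae (Filter.Eventually.of_forall fun x => ?_)
  simp only [Pi.add_apply, add_mul, Finset.sum_add_distrib]

theorem ip_add_right {f g h : V → V} (hf : Continuous f) (hg : Continuous g) (hh : Continuous h) :
    ip h (fun x => f x + g x) = ip h f + ip h g := by
  rw [ip_comm, ip_add_left hf hg hh, ip_comm f, ip_comm g]

theorem ip_self_nonneg (f : V → V) : 0 ≤ ip f f :=
  integral_nonneg fun x => Finset.sum_nonneg fun i _ => mul_self_nonneg _

theorem two_ip_le {f g : V → V} (hf : Continuous f) (hg : Continuous g) :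
    |2 * ip f g| ≤ ip f f + ip g g := by
  have e : ip f f + ip g g = ∫ x in cube, (∑ i, f x i * f x i + ∑ i, g x i * g x i) := by
    unfold ip
    rw [← integral_add (int_ip hf hf) (int_ip hg hg)]
  have e2 : 2 * ip f g = ∫ x in cube, 2 * ∑ i, f x i * g x i := by
    unfold ip
    rw [integral_const_mul]
  rw [e, e2]
  refine (abs_integral_le_integral_abs).trans ?_
  refine integral_mono ((int_ip hf hg).const_mul 2).abs
    ((int_ip hf hf).add (int_ip hg hg)) fun x => ?_
  change |2 * ∑ i, f x i * g x i| ≤ ∑ i, f x i * f x i + ∑ i, g x i * g x i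
  rw [Finset.mul_sum, ← Finset.sum_add_distrib]
  refine (Finset.abs_sum_le_sum_abs _ _).trans (Finset.sum_le_sum fun i _ => ?_)
  rw [abs_le]
  constructor
  · nlinarith [sq_nonneg (f x i + g x i)]
  · nlinarith [sq_nonneg (f x i - g x i)]

theorem l2_of_c1 {f : V → V} (hf : C1P f) : L2P f := by
  refine ⟨hf.per, fun i => ?_⟩
  have := cube_finite
  have hc : Continuous (fun x => f x i) := cont_comp hf.c1.continuous i
  obtain ⟨C, hC⟩ := (isCompact_Icc (a := (0 : V)) (b := 1)).exists_bound_of_continuousOn
    hc.continuousOn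
  refine MemLp.of_bound hc.aestronglyMeasurable C ?_
  exact (ae_restrict_iff' measurableSet_Icc).2 (Filter.Eventually.of_forall fun x hx => hC x hx)

theorem c1_slice {T : ℝ} {v : ℝ → V → V}
    (hv : ContDiffOn ℝ 1 (fun z : ℝ × V => v z.1 z.2) (Ico 0 T ×ˢ univ)) {t : ℝ}
    (ht : t ∈ Ico 0 T) : ContDiff ℝ 1 (v t) := by
  rw [← contDiffOn_univ]
  exact hv.comp (contDiff_const.prodMk contDiff_id).contDiffOn (fun x _ => ⟨ht, mem_univ _⟩)

theorem c1_sub {f g : V → V} (hf : C1P f) (hg : C1P g) : C1P (fun x => f x - g x) :=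
  ⟨hf.c1.sub hg.c1, fun i x => by
    show f (x + Pi.single i 1) - g (x + Pi.single i 1) = f x - g x
    rw [hf.per, hg.per]⟩

/-- Expansion of the energy around a field `f`. -/
theorem energy_expand {δ : ℝ} {A : (V → V) → V → V} (hA : SmallOp δ A) {f g : V → V}
    (hf : C1P f) (hg : C1P g) :
    ip g g + ip g (A g) = -(ip f f + ip f (A f)) + 2 * ip g (fun x => f x + A f x)
      + (ip (fun x => g x - f x) (fun x => g x - f x)
        + ip (fun x => g x - f x) (A (fun x => g x - f x))) := by
  have hh : C1P (fun x => g x - f x) := c1_sub hg hf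
  set h : V → V := fun x => g x - f x with hdef
  have cf := hf.c1.continuous
  have ch := hh.c1.continuous
  have cAf := (hA.c1 f hf).c1.continuous
  have cAh := (hA.c1 h hh).c1.continuous
  have hgf : g = fun x => f x + h x := by
    funext x
    simp [hdef]
  have hAg : A g = fun x => A f x + A h x := by
    rw [hgf]
    exact hA.add f h (l2_of_c1 hf) (l2_of_c1 hh)
  have s1 : ip f (A h) = ip h (A f) := by
    rw [hA.symm f h (l2_of_c1 hf) (l2_of_c1 hh), ip_comm]
  have cfh : Continuous (fun x => f x + h x) := cf.add ch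
  have cAfh : Continuous (fun x => A f x + A h x) := cAf.add cAh
  have cfAf : Continuous (fun x => f x + A f x) := cf.add cAf
  have s2 : ip f h = ip h f := ip_comm f h
  have key : ip (fun x => f x + h x) (fun x => f x + h x)
        + ip (fun x => f x + h x) (fun x => A f x + A h x)
      = -(ip f f + ip f (A f)) + 2 * ip h (fun x => f x + A f x)
        + 2 * ip f (fun x => f x + A f x) + (ip h h + ip h (A h)) := by
    rw [ip_add_left cf ch cfh, ip_add_right cf ch cf, ip_add_right cf ch ch,
      ip_add_left cf ch cAfh, ip_add_right cAf cAh cf, ip_add_right cAf cAh ch,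
      ip_add_right cf cAf cf, ip_add_right cf cAf ch, s1, s2]
    ring
  have e3 : ip (fun x => f x + h x) (fun x => f x + A f x)
      = ip f (fun x => f x + A f x) + ip h (fun x => f x + A f x) := ip_add_left cf ch cfAf
  rw [hAg, hgf, key, e3]
  ring

theorem rest_le {δ : ℝ} {A : (V → V) → V → V} (hA : SmallOp δ A) {h : V → V} (hh : C1P h) :
    |ip h h + ip h (A h)| ≤ (2 + δ ^ 2) * ip h h := by
  have c1 := two_ip_le hh.c1.continuous (hA.c1 h hh).c1.continuous
  have c2 := hA.small h (l2_of_c1 hh)
  have c3 := ip_self_nonneg h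
  have c4 : 0 ≤ δ ^ 2 * ip h h := mul_nonneg (sq_nonneg _) c3
  have c5 := abs_le.1 c1
  rw [abs_le]
  constructor
  · nlinarith [c5.1, c5.2]
  · nlinarith [c5.1, c5.2]

theorem comp_c1 {T : ℝ} {v : ℝ → V → V}
    (hv : ContDiffOn ℝ 1 (fun z : ℝ × V => v z.1 z.2) (Ico 0 T ×ˢ univ)) (i : Fin 3) :
    ContDiffOn ℝ 1 (fun z : ℝ × V => v z.1 z.2 i) (Ico 0 T ×ˢ univ) :=
  (contDiff_apply ℝ ℝ i).comp_contDiffOn hv

theorem t_DER : S_DER := by
  intro δ A hA T v hv hper
  have hC : ∀ t ∈ Ico 0 T, C1P (v t) := fun t ht => ⟨c1_slice hv ht, hper t ht⟩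
  -- the linear part
  have hL : ∀ u : V → V, ContDiff ℝ 1 u → ContDiffOn ℝ 1
      (fun z : ℝ × V => ∑ i, v z.1 z.2 i * u z.2 i) (Ico 0 T ×ˢ univ) := by
    intro u hu
    refine ContDiffOn.sum fun i _ => (comp_c1 hv i).mul ?_
    exact ((contDiff_apply ℝ ℝ i).comp (hu.comp contDiff_snd)).contDiffOn
  -- the quadratic part
  have hQ : ∀ u : V → V, ContDiff ℝ 1 u → ContDiffOn ℝ 1
      (fun z : ℝ × V => ∑ i, (v z.1 z.2 - u z.2) i * (v z.1 z.2 - u z.2) i)
      (Ico 0 T ×ˢ univ) := by
    intro u hu
    have h1 : ∀ i, ContDiffOn ℝ 1 (fun z : ℝ × V => (v z.1 z.2 - u z.2) i) (Ico 0 T ×ˢ univ) :=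
      fun i => (comp_c1 hv i).sub
        (((contDiff_apply ℝ ℝ i).comp (hu.comp contDiff_snd)).contDiffOn)
    exact ContDiffOn.sum fun i _ => (h1 i).mul (h1 i)
  have hexp : ∀ t ∈ Ico 0 T, ∀ s ∈ Ico 0 T, ip (v s) (v s) + ip (v s) (A (v s))
      = -(ip (v t) (v t) + ip (v t) (A (v t))) + 2 * ip (v s) (fun x => v t x + A (v t) x)
      + (ip (fun x => v s x - v t x) (fun x => v s x - v t x)
        + ip (fun x => v s x - v t x) (A (fun x => v s x - v t x))) := fun t ht s hs =>
    energy_expand hA (hC t ht) (hC s hs)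
  have hrest : ∀ t ∈ Ico 0 T, ∀ s ∈ Ico 0 T,
      |ip (fun x => v s x - v t x) (fun x => v s x - v t x)
        + ip (fun x => v s x - v t x) (A (fun x => v s x - v t x))|
      ≤ (2 + δ ^ 2) * ip (fun x => v s x - v t x) (fun x => v s x - v t x) := fun t ht s hs =>
    rest_le hA (c1_sub (hC s hs) (hC t ht))
  have hzero : ∀ t, ip (fun x => v t x - v t x) (fun x => v t x - v t x) = 0 := by
    intro t
    unfold ip
    simp
  have hu : ∀ t ∈ Ico 0 T, ContDiff ℝ 1 (fun x => v t x + A (v t) x) := fun t ht =>
    (hC t ht).c1.add (hA.c1 _ (hC t ht)).c1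
  constructor
  · intro t ht
    have hLc : ContinuousWithinAt (fun s => ip (v s) (fun x => v t x + A (v t) x)) (Ico 0 T) t :=
      continuousOn_int (F := fun s x => ∑ i, v s x i * (v t x + A (v t) x) i)
        (hL _ (hu t ht)).continuousOn t ht
    have hQc : ContinuousWithinAt (fun s => ip (fun x => v s x - v t x) (fun x => v s x - v t x))
        (Ico 0 T) t :=
      continuousOn_int (F := fun s x => ∑ i, (v s x - v t x) i * (v s x - v t x) i)
        (hQ _ (hC t ht).c1).continuousOn t ht
    have hQ0 : Tendsto (fun s => (2 + δ ^ 2) *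
        ip (fun x => v s x - v t x) (fun x => v s x - v t x)) (𝓝[Ico 0 T] t) (𝓝 0) := by
      have h := hQc.tendsto.const_mul (2 + δ ^ 2)
      rw [hzero t, mul_zero] at h
      exact h
    have hR : Tendsto (fun s => ip (fun x => v s x - v t x) (fun x => v s x - v t x)
        + ip (fun x => v s x - v t x) (A (fun x => v s x - v t x))) (𝓝[Ico 0 T] t) (𝓝 0) := by
      refine squeeze_zero_norm' ?_ hQ0
      filter_upwards [self_mem_nhdsWithin] with s hs
      exact hrest t ht s hs
    have htot : Tendsto (fun s => -(ip (v t) (v t) + ip (v t) (A (v t)))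
        + 2 * ip (v s) (fun x => v t x + A (v t) x)
        + (ip (fun x => v s x - v t x) (fun x => v s x - v t x)
        + ip (fun x => v s x - v t x) (A (fun x => v s x - v t x)))) (𝓝[Ico 0 T] t)
        (𝓝 (-(ip (v t) (v t) + ip (v t) (A (v t)))
        + 2 * ip (v t) (fun x => v t x + A (v t) x) + 0)) :=
      ((tendsto_const_nhds).add (hLc.tendsto.const_mul 2)).add hR
    have hval : -(ip (v t) (v t) + ip (v t) (A (v t)))
        + 2 * ip (v t) (fun x => v t x + A (v t) x) + 0 = ip (v t) (v t) + ip (v t) (A (v t)) := by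
      rw [ip_add_right (hC t ht).c1.continuous (hA.c1 _ (hC t ht)).c1.continuous
        (hC t ht).c1.continuous]
      ring
    rw [hval] at htot
    refine htot.congr' ?_
    filter_upwards [self_mem_nhdsWithin] with s hs
    exact (hexp t ht s hs).symm
  · intro t ht
    have ht' : t ∈ Ico 0 T := ⟨ht.1.le, ht.2⟩
    have hsub : Ioo 0 T ×ˢ (univ : Set V) ⊆ Ico 0 T ×ˢ univ :=
      prod_mono Ioo_subset_Ico_self subset_rfl
    have hvd : ∀ x i, HasDerivAt (fun s => v s x i) (deriv (fun s => v s x i) t) t := by
      intro x i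
      have hmem : Ioo 0 T ×ˢ (univ : Set V) ∈ 𝓝 (t, x) :=
        prod_mem_nhds (Ioo_mem_nhds ht.1 ht.2) Filter.univ_mem
      have h1 : DifferentiableAt ℝ (fun z : ℝ × V => v z.1 z.2 i) (t, x) :=
        (((comp_c1 hv i).mono hsub).contDiffAt hmem).differentiableAt one_ne_zero
      have h2 : DifferentiableAt ℝ (fun s : ℝ => ((s, x) : ℝ × V)) t := by fun_prop
      have h3 : DifferentiableAt ℝ (fun s : ℝ => v s x i) t :=
        DifferentiableAt.comp (g := fun z : ℝ × V => v z.1 z.2 i) t h1 h2
      exact h3.hasDerivAt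
    have hLd : HasDerivAt (fun s => ip (v s) (fun x => v t x + A (v t) x))
        (∫ x in cube, ∑ i, deriv (fun s => v s x i) t * (v t x i + A (v t) x i)) t := by
      have h := hasDerivAt_int (F := fun s x => ∑ i, v s x i * (v t x + A (v t) x) i)
        ((hL _ (hu t ht')).mono hsub) ht
      have e : (∫ x in cube, deriv (fun s => ∑ i, v s x i * (v t x + A (v t) x) i) t)
          = ∫ x in cube, ∑ i, deriv (fun s => v s x i) t * (v t x i + A (v t) x i) := by
        refine integral_congr_ae (Filter.Eventually.of_forall fun x => ?_)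
        exact (HasDerivAt.fun_sum fun i _ =>
          (hvd x i).mul_const ((v t x + A (v t) x) i)).deriv
      rw [← e]
      exact h
    have hQd : HasDerivAt (fun s => ip (fun x => v s x - v t x) (fun x => v s x - v t x)) 0 t := by
      have h := hasDerivAt_int (F := fun s x => ∑ i, (v s x - v t x) i * (v s x - v t x) i)
        ((hQ _ (hC t ht').c1).mono hsub) ht
      have e : (∫ x in cube, deriv (fun s => ∑ i, (v s x - v t x) i * (v s x - v t x) i) t)
          = 0 := by
        have e1 : (∫ x in cube, deriv (fun s => ∑ i, (v s x - v t x) i * (v s x - v t x) i) t)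
            = ∫ x in cube, (0 : ℝ) := by
          refine integral_congr_ae (Filter.Eventually.of_forall fun x => ?_)
          have h1 : ∀ i, HasDerivAt (fun s => (v s x - v t x) i)
              (deriv (fun s => v s x i) t) t := fun i => (hvd x i).sub_const (v t x i)
          have h2 := (HasDerivAt.fun_sum (u := Finset.univ) fun i _ => (h1 i).mul (h1 i)).deriv
          refine h2.trans ?_
          simp
        rw [e1]
        simp
      rw [← e]
      exact h
    have hRo : HasDerivAt (fun s => ip (fun x => v s x - v t x) (fun x => v s x - v t x)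
        + ip (fun x => v s x - v t x) (A (fun x => v s x - v t x))) 0 t := by
      rw [hasDerivAt_iff_isLittleO]
      have h1 : (fun s => ip (fun x => v s x - v t x) (fun x => v s x - v t x))
          =o[𝓝 t] fun s => s - t := by
        have h := hasDerivAt_iff_isLittleO.1 hQd
        rw [hzero t] at h
        simpa using h
      refine Asymptotics.IsBigO.trans_isLittleO ?_ h1
      refine Asymptotics.IsBigO.of_bound (2 + δ ^ 2) ?_
      filter_upwards [Ioo_mem_nhds ht.1 ht.2] with s hs
      have hz : ip (fun x => v t x - v t x) (fun x => v t x - v t x)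
        + ip (fun x => v t x - v t x) (A (fun x => v t x - v t x)) = 0 := by
        have := hrest t ht' t ht'
        rw [hzero t, mul_zero] at this
        have h0 := abs_nonpos_iff.1 this
        rw [hzero t]
        exact h0
      rw [hz, smul_zero, sub_zero, sub_zero, Real.norm_eq_abs, Real.norm_eq_abs,
        abs_of_nonneg (ip_self_nonneg _)]
      exact hrest t ht' s ⟨hs.1.le, hs.2⟩
    have htot := ((hLd.const_mul 2).const_add
      (-(ip (v t) (v t) + ip (v t) (A (v t))))).add hRo
    rw [add_zero] at htot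
    refine htot.congr_of_eventuallyEq ?_
    filter_upwards [Ioo_mem_nhds ht.1 ht.2] with s hs
    exact hexp t ht' s ⟨hs.1.le, hs.2⟩

end Pool.Agent.Q137.SP
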