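import Pool.Agent.Q62.SP.Stm

/-!
Project SP, job 18: bounds for the cells and the sensors.
-/

open MeasureTheory Set Filter Topology
open scoped ContDiff
open H459R3.NS (V pd Per cube)

namespace Pool.Agent.Q137.SP

open Pool.Agent.Q62.SP

/-- Smooth functions of the plane which vanish outside the square of size `66 / 2 ^ n`. -/
structure Pl (n : ℕ) (k : ℝ → ℝ → ℝ) : Prop where
  smooth : ContDiff ℝ ∞ (fun z : ℝ × ℝ => k z.1 z.2)
  za : ∀ a b, 66 / 2 ^ n ≤ |a| → k a b = 0
  zb : ∀ a b, 66 / 2 ^ n ≤ |b| → k a b = 0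

theorem two_pow_pos (n : ℕ) : (0 : ℝ) < 2 ^ n := by positivity

theorem le_scaled {n : ℕ} {a : ℝ} (h : 66 / 2 ^ n ≤ |a|) : 66 ≤ |2 ^ n * a| := by
  have h2 := two_pow_pos n
  rw [abs_mul, abs_of_pos h2]
  rw [div_le_iff₀ h2] at h
  linarith

theorem le_eleven {n : ℕ} {a : ℝ} (h : 66 / 2 ^ n ≤ |a|) : 6 ≤ |2 ^ n * a / 11| := by
  have h1 := le_scaled h
  rw [abs_div, abs_of_pos (by norm_num : (0 : ℝ) < 11)]
  rw [le_div_iff₀ (by norm_num)]
  linarith

theorem le_far {n : ℕ} {a : ℝ} (h : 66 / 2 ^ n ≤ |a|) : 2 ≤ |140 * (2 ^ n * a)| := by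
  have h1 := le_scaled h
  rw [abs_mul, abs_of_pos (by norm_num : (0 : ℝ) < 140)]
  linarith

theorem pl_th (hp1 : S_PHI) (n : ℕ) : Pl n (th n) := by
  obtain ⟨⟨f1, f2, f3, f4, f5, f6⟩, ⟨q1, q2, q3, q4, q5⟩, ⟨P1, P2, P3, P4, P5, P6, P7⟩,
    ⟨s1, s2, s3, s4, s5⟩⟩ := hp1
  refine ⟨?_, fun a b h => ?_, fun a b h => ?_⟩
  · unfold th
    exact (f1.comp (by fun_prop)).mul (s1.comp (by fun_prop))
  · unfold th
    rw [f4 _ (le_far h), zero_mul]
  · unfold th
    have h1 := le_scaled h
    have h2 : psi (2 ^ n * b) = 0 := by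
      by_contra hne
      obtain ⟨h3, h4⟩ := s3 _ hne
      rw [abs_of_nonneg (by linarith)] at h1
      linarith
    rw [h2, mul_zero]

theorem pl_VA (hp1 : S_PHI) (n : ℕ) : Pl n (VA n) := by
  obtain ⟨⟨f1, f2, f3, f4, f5, f6⟩, ⟨q1, q2, q3, q4, q5⟩, ⟨P1, P2, P3, P4, P5, P6, P7⟩,
    ⟨s1, s2, s3, s4, s5⟩⟩ := hp1
  refine ⟨?_, fun a b h => ?_, fun a b h => ?_⟩
  · unfold VA
    exact (contDiff_const.mul (P1.comp (by fun_prop))).mul (q1.comp (by fun_prop))
  · unfold VA
    rw [P4 _ (le_eleven h)]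
    ring
  · unfold VA
    rw [q4 _ (le_eleven h)]
    ring

theorem pl_VB (hp1 : S_PHI) (n : ℕ) : Pl n (VB n) := by
  obtain ⟨⟨f1, f2, f3, f4, f5, f6⟩, ⟨q1, q2, q3, q4, q5⟩, ⟨P1, P2, P3, P4, P5, P6, P7⟩,
    ⟨s1, s2, s3, s4, s5⟩⟩ := hp1
  refine ⟨?_, fun a b h => ?_, fun a b h => ?_⟩
  · unfold VB
    exact ((contDiff_const.mul (q1.comp (by fun_prop))).mul (P1.comp (by fun_prop))).neg
  · unfold VB
    rw [q4 _ (le_eleven h)]
    ring
  · unfold VB
    rw [P4 _ (le_eleven h)]
    ring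

theorem per_of (hp2 : S_PER) {N : ℝ} (hN : 198 ≤ N) {n : ℕ} {k : ℝ → ℝ → ℝ} (hk : Pl n k) :
    ContDiff ℝ ∞ (fun x : V => k (xi N (x 0)) (xi N (x 1))) ∧
    Per (fun x : V => k (xi N (x 0)) (xi N (x 1))) ∧ ∀ x : V,
    pd 0 (fun x : V => k (xi N (x 0)) (xi N (x 1))) x
      = N * deriv (fun a => k a (xi N (x 1))) (xi N (x 0)) ∧
    pd 1 (fun x : V => k (xi N (x 0)) (xi N (x 1))) x
      = N * deriv (fun b => k (xi N (x 0)) b) (xi N (x 1)) ∧
    pd 2 (fun x : V => k (xi N (x 0)) (xi N (x 1))) x = 0 := by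
  have h66 : (66 : ℝ) / 2 ^ n ≤ 66 := by
    rw [div_le_iff₀ (two_pow_pos n)]
    have : (1 : ℝ) ≤ 2 ^ n := one_le_pow₀ (by norm_num)
    linarith
  have h66' : (66 : ℝ) / 2 ^ n ≤ |66| := by
    rw [abs_of_pos (by norm_num : (0 : ℝ) < 66)]
    exact h66
  have h := hp2 N hN (fun a b _ => k a b)
    (hk.smooth.comp (f := fun z : ℝ × ℝ × ℝ => (z.1, z.2.1)) (by fun_prop))
    (fun a b _ ha => by rw [hk.za a b (h66.trans ha), hk.za 66 b h66'])
    (fun a b _ hb => by rw [hk.zb a b (h66.trans hb), hk.zb a 66 h66'])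
  refine ⟨?_, (h.2 0).1, (h.2 0).2⟩
  exact h.1.comp (contDiff_const (c := (0 : ℝ)).prodMk contDiff_id)

theorem supp_of {n : ℕ} {k : ℝ → ℝ → ℝ} (hk : Pl n k) {a b : ℝ} (h : k a b ≠ 0) :
    |a| ≤ 66 / 2 ^ n ∧ |b| ≤ 66 / 2 ^ n := by
  constructor
  · by_contra hc
    exact h (hk.za a b (not_le.1 hc).le)
  · by_contra hc
    exact h (hk.zb a b (not_le.1 hc).le)

theorem deriv_bdd {f : ℝ → ℝ} (hf : ContDiff ℝ ∞ f) {R : ℝ} (h : ∀ y, R ≤ |y| → f y = 0) :
    ∃ M, 0 ≤ M ∧ ∀ y, |deriv f y| ≤ M := by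
  have hs : HasCompactSupport f := by
    refine HasCompactSupport.intro (K := Icc (-R) R) isCompact_Icc fun x hx => h x ?_
    by_contra hc
    exact hx (mem_Icc.2 (abs_le.1 (not_le.1 hc).le))
  obtain ⟨M, hM⟩ := (hf.continuous_deriv (by norm_cast)).bounded_above_of_compact_support hs.deriv
  exact ⟨M, (norm_nonneg _).trans (hM 0), fun y => hM y⟩

theorem deriv_scale {f : ℝ → ℝ} (hf : ContDiff ℝ ∞ f) (c y : ℝ) :
    HasDerivAt (fun a => f (c * a)) (deriv f (c * y) * c) y := by
  have h1 : HasDerivAt (fun a : ℝ => c * a) c y := by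
    simpa using (hasDerivAt_id y).const_mul c
  exact (hf.differentiable (by norm_num) (c * y)).hasDerivAt.comp y h1

theorem pd_zero (j : Fin 3) (x : V) : pd j (fun _ : V => (0 : ℝ)) x = 0 := by
  unfold pd
  simp

theorem t_EDN (hp1 : S_PHI) (hp2 : S_PER) : S_EDN := by
  intro N hN
  have hth := pl_th hp1
  have hVA := pl_VA hp1
  have hVB := pl_VB hp1
  obtain ⟨⟨f1, f2, f3, f4, f5, f6⟩, ⟨q1, q2, q3, q4, q5⟩, ⟨P1, P2, P3, P4, P5, P6, P7⟩,
    ⟨s1, s2, s3, s4, s5⟩⟩ := hp1
  have hps : ∀ y, 6 ≤ |y| → psi y = 0 := by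
    intro y hy
    by_contra hne
    obtain ⟨h3, h4⟩ := s3 _ hne
    rw [abs_of_nonneg (by linarith)] at hy
    linarith
  obtain ⟨M1, hM1, hM1'⟩ := deriv_bdd f1 f4
  obtain ⟨M2, hM2, hM2'⟩ := deriv_bdd s1 hps
  obtain ⟨M3, hM3, hM3'⟩ := deriv_bdd q1 q4
  have hq : ∀ y, |qq y| ≤ 1 := fun y => abs_le.2 ⟨by linarith [(q2 y).1], (q2 y).2⟩
  have hf : ∀ y, |phi y| ≤ 1 := fun y => abs_le.2 ⟨by linarith [(f2 y).1], (f2 y).2⟩
  have hP : ∀ y, |PP y| ≤ 6 := by
    intro y
    rcases le_total 6 |y| with h | h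
    · rw [P4 y h]
      norm_num
    · exact (P7 y).trans h
  have hN0 : (0 : ℝ) < N := by linarith
  have hPd : ∀ y, deriv PP y = qq y := fun y => (P2 y).deriv
  -- the derivatives of the planar functions
  have c11 : ∀ n : ℕ, (2 : ℝ) ^ n * (1 / 11) = 2 ^ n / 11 := fun n => by ring
  have hd : ∀ {f : ℝ → ℝ}, ContDiff ℝ ∞ f → ∀ (n : ℕ) (y : ℝ),
      HasDerivAt (fun a => f (2 ^ n * a / 11)) (deriv f (2 ^ n * y / 11) * (2 ^ n / 11)) y := by
    intro f hf n y
    have h := deriv_scale hf (2 ^ n / 11) y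
    have e : ∀ a : ℝ, 2 ^ n / 11 * a = 2 ^ n * a / 11 := fun a => by ring
    simpa only [e] using h
  have dVAa : ∀ (n : ℕ) (a b : ℝ), deriv (fun a => VA n a b) a
      = qq (2 ^ n * a / 11) * qq (2 ^ n * b / 11) := by
    intro n a b
    have h := (((hd P1 n a).const_mul (11 / 2 ^ n)).mul_const (qq (2 ^ n * b / 11))).deriv
    rw [hPd] at h
    refine h.trans ?_
    have := two_pow_pos n
    field_simp
  have dVAb : ∀ (n : ℕ) (a b : ℝ), deriv (fun b => VA n a b) b
      = PP (2 ^ n * a / 11) * deriv qq (2 ^ n * b / 11) := by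
    intro n a b
    have h := ((hd q1 n b).const_mul (11 / 2 ^ n * PP (2 ^ n * a / 11))).deriv
    refine h.trans ?_
    have := two_pow_pos n
    field_simp
  have dVBa : ∀ (n : ℕ) (a b : ℝ), deriv (fun a => VB n a b) a
      = -(deriv qq (2 ^ n * a / 11) * PP (2 ^ n * b / 11)) := by
    intro n a b
    have h := (((hd q1 n a).const_mul (11 / 2 ^ n)).mul_const (PP (2 ^ n * b / 11))).fun_neg.deriv
    refine h.trans ?_
    have := two_pow_pos n
    field_simp
  have dVBb : ∀ (n : ℕ) (a b : ℝ), deriv (fun b => VB n a b) b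
      = -(qq (2 ^ n * a / 11) * qq (2 ^ n * b / 11)) := by
    intro n a b
    have h := ((hd P1 n b).const_mul (11 / 2 ^ n * qq (2 ^ n * a / 11))).fun_neg.deriv
    rw [hPd] at h
    refine h.trans ?_
    have := two_pow_pos n
    field_simp
  have dtha : ∀ (n : ℕ) (a b : ℝ), deriv (fun a => th n a b) a
      = deriv phi (140 * (2 ^ n * a)) * (140 * 2 ^ n) * psi (2 ^ n * b) := by
    intro n a b
    have h := deriv_scale f1 (140 * 2 ^ n) a
    have e : ∀ a : ℝ, 140 * 2 ^ n * a = 140 * (2 ^ n * a) := fun a => by ring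
    simp only [e] at h
    exact (h.mul_const (psi (2 ^ n * b))).deriv
  have dthb : ∀ (n : ℕ) (a b : ℝ), deriv (fun b => th n a b) b
      = phi (140 * (2 ^ n * a)) * (deriv psi (2 ^ n * b) * 2 ^ n) := by
    intro n a b
    exact ((deriv_scale s1 (2 ^ n) b).const_mul (phi (140 * (2 ^ n * a)))).deriv
  have rth := fun n => per_of hp2 hN (hth n)
  have rVA := fun n => per_of hp2 hN (hVA n)
  have rVB := fun n => per_of hp2 hN (hVB n)
  -- components
  have e0 : ∀ n, (fun y => ee N n y 0) = fun _ => 0 := fun n => rfl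
  have e1 : ∀ n, (fun y => ee N n y 1) = fun _ => 0 := fun n => rfl
  have e2 : ∀ n, (fun y => ee N n y 2) = fun x => th n (xi N (x 0)) (xi N (x 1)) := fun n => rfl
  have d0 : ∀ n, (fun y => dd N n y 0) = fun x => VA n (xi N (x 0)) (xi N (x 1)) := fun n => rfl
  have d1 : ∀ n, (fun y => dd N n y 1) = fun x => VB n (xi N (x 0)) (xi N (x 1)) := fun n => rfl
  have d2 : ∀ n, (fun y => dd N n y 2) = fun _ => 0 := fun n => rfl
  have hC0 : 0 ≤ 140 * M1 + M2 + 6 * M3 := by positivity
  have hC1 : 66 ≤ N * (140 * M1 + M2 + 6 * M3 + 1) := by nlinarith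
  have hCN : N * (140 * M1) ≤ N * (140 * M1 + M2 + 6 * M3 + 1) :=
    mul_le_mul_of_nonneg_left (by linarith) hN0.le
  have hCN2 : N * M2 ≤ N * (140 * M1 + M2 + 6 * M3 + 1) :=
    mul_le_mul_of_nonneg_left (by linarith) hN0.le
  have hCN3 : N * (6 * M3) ≤ N * (140 * M1 + M2 + 6 * M3 + 1) :=
    mul_le_mul_of_nonneg_left (by linarith) hN0.le
  have hCN4 : N * 1 ≤ N * (140 * M1 + M2 + 6 * M3 + 1) :=
    mul_le_mul_of_nonneg_left (by linarith) hN0.le
  have hCpos : 0 < N * (140 * M1 + M2 + 6 * M3 + 1) := by linarith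
  refine ⟨N * (140 * M1 + M2 + 6 * M3 + 1), ⟨hCpos, ?_, ?_, ?_, ?_, ?_, ?_⟩⟩
  · intro n
    constructor
    · rw [contDiff_pi]
      intro i
      fin_cases i
      · exact contDiff_const
      · exact contDiff_const
      · exact (rth n).1
    · rw [contDiff_pi]
      intro i
      fin_cases i
      · exact (rVA n).1
      · exact (rVB n).1
      · exact contDiff_const
  · intro n
    constructor
    · intro j x
      have h := (rth n).2.1 j x
      simp only at h
      unfold ee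
      rw [h]
    · intro j x
      have h := (rVA n).2.1 j x
      have h' := (rVB n).2.1 j x
      simp only at h h'
      unfold dd
      rw [h, h']
  · intro n x i
    have h2 := two_pow_pos n
    have hdd0 : ∀ a b, |VA n a b| ≤ 66 / 2 ^ n := by
      intro a b
      unfold VA
      rw [abs_mul, abs_mul, abs_of_pos (by positivity : (0 : ℝ) < 11 / 2 ^ n)]
      calc 11 / 2 ^ n * |PP (2 ^ n * a / 11)| * |qq (2 ^ n * b / 11)| ≤ 11 / 2 ^ n * 6 * 1 := by
            gcongr
            · exact hP _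
            · exact hq _
        _ = 66 / 2 ^ n := by ring
    have hdd1 : ∀ a b, |VB n a b| ≤ 66 / 2 ^ n := by
      intro a b
      unfold VB
      rw [abs_neg, abs_mul, abs_mul, abs_of_pos (by positivity : (0 : ℝ) < 11 / 2 ^ n)]
      calc 11 / 2 ^ n * |qq (2 ^ n * a / 11)| * |PP (2 ^ n * b / 11)| ≤ 11 / 2 ^ n * 1 * 6 := by
            gcongr
            · exact hq _
            · exact hP _
        _ = 66 / 2 ^ n := by ring
    have hle : 66 / 2 ^ n ≤ N * (140 * M1 + M2 + 6 * M3 + 1) / 2 ^ n :=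
      div_le_div_of_nonneg_right hC1 h2.le
    constructor
    · fin_cases i
      · change |(0 : ℝ)| ≤ 1
        simp
      · change |(0 : ℝ)| ≤ 1
        simp
      · change |phi (140 * (2 ^ n * xi N (x 0))) * psi (2 ^ n * xi N (x 1))| ≤ 1
        rw [abs_mul]
        exact mul_le_one₀ (hf _) (abs_nonneg _) (s2 _)
    · fin_cases i
      · exact (hdd0 _ _).trans hle
      · exact (hdd1 _ _).trans hle
      · change |(0 : ℝ)| ≤ _
        rw [abs_zero]
        positivity
  · intro n x i j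
    have h2 := two_pow_pos n
    have h21 : (1 : ℝ) ≤ 2 ^ n := one_le_pow₀ (by norm_num)
    have z1 : |(0 : ℝ)| ≤ N * (140 * M1 + M2 + 6 * M3 + 1) * 2 ^ n := by
      rw [abs_zero]
      positivity
    have z2 : |(0 : ℝ)| ≤ N * (140 * M1 + M2 + 6 * M3 + 1) := by
      rw [abs_zero]
      positivity
    constructor
    · fin_cases i
      · change |pd j (fun y => ee N n y 0) x| ≤ _
        rw [e0, pd_zero]
        exact z1
      · change |pd j (fun y => ee N n y 1) x| ≤ _
        rw [e1, pd_zero]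
        exact z1
      · change |pd j (fun y => ee N n y 2) x| ≤ _
        rw [e2]
        obtain ⟨r0, r1, r2⟩ := (rth n).2.2 x
        fin_cases j
        · refine (congrArg abs r0).trans_le ?_
          rw [dtha, abs_mul, abs_mul, abs_mul, abs_of_pos hN0,
            abs_of_pos (by positivity : (0 : ℝ) < 140 * 2 ^ n)]
          calc N * (|deriv phi (140 * (2 ^ n * xi N (x 0)))| * (140 * 2 ^ n)
                * |psi (2 ^ n * xi N (x 1))|) ≤ N * (M1 * (140 * 2 ^ n) * 1) := by
                gcongr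
                · exact hM1' _
                · exact s2 _
            _ = N * (140 * M1) * 2 ^ n := by ring
            _ ≤ _ := mul_le_mul_of_nonneg_right hCN h2.le
        · refine (congrArg abs r1).trans_le ?_
          rw [dthb, abs_mul, abs_mul, abs_mul, abs_of_pos hN0, abs_of_pos h2]
          calc N * (|phi (140 * (2 ^ n * xi N (x 0)))| * (|deriv psi (2 ^ n * xi N (x 1))| * 2 ^ n))
              ≤ N * (1 * (M2 * 2 ^ n)) := by
                gcongr
                · exact hf _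
                · exact hM2' _
            _ = N * M2 * 2 ^ n := by ring
            _ ≤ _ := mul_le_mul_of_nonneg_right hCN2 h2.le
        · refine (congrArg abs r2).trans_le ?_
          exact z1
    · fin_cases i
      · change |pd j (fun y => dd N n y 0) x| ≤ _
        rw [d0]
        obtain ⟨r0, r1, r2⟩ := (rVA n).2.2 x
        fin_cases j
        · refine (congrArg abs r0).trans_le ?_
          rw [dVAa, abs_mul, abs_mul, abs_of_pos hN0]
          refine le_trans ?_ hCN4
          exact mul_le_mul_of_nonneg_left (mul_le_one₀ (hq _) (abs_nonneg _) (hq _)) hN0.le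
        · refine (congrArg abs r1).trans_le ?_
          rw [dVAb, abs_mul, abs_mul, abs_of_pos hN0]
          refine le_trans ?_ hCN3
          exact mul_le_mul_of_nonneg_left
            (mul_le_mul (hP _) (hM3' _) (abs_nonneg _) (by norm_num)) hN0.le
        · refine (congrArg abs r2).trans_le ?_
          exact z2
      · change |pd j (fun y => dd N n y 1) x| ≤ _
        rw [d1]
        obtain ⟨r0, r1, r2⟩ := (rVB n).2.2 x
        fin_cases j
        · refine (congrArg abs r0).trans_le ?_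
          rw [dVBa, abs_mul, abs_neg, abs_mul, abs_of_pos hN0]
          refine le_trans ?_ hCN3
          refine mul_le_mul_of_nonneg_left ?_ hN0.le
          rw [mul_comm 6 M3]
          exact mul_le_mul (hM3' _) (hP _) (abs_nonneg _) hM3
        · refine (congrArg abs r1).trans_le ?_
          rw [dVBb, abs_mul, abs_neg, abs_mul, abs_of_pos hN0]
          refine le_trans ?_ hCN4
          exact mul_le_mul_of_nonneg_left (mul_le_one₀ (hq _) (abs_nonneg _) (hq _)) hN0.le
        · refine (congrArg abs r2).trans_le ?_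
          exact z2
      · change |pd j (fun y => dd N n y 2) x| ≤ _
        rw [d2, pd_zero]
        exact z2
  · intro n x
    constructor
    · rw [Fin.sum_univ_three, e0, e1, e2, pd_zero, pd_zero, ((rth n).2.2 x).2.2]
      simp
    · rw [Fin.sum_univ_three, d0, d1, d2, pd_zero, ((rVA n).2.2 x).1, ((rVB n).2.2 x).2.1, dVAa,
        dVBb]
      ring
  · intro n x h
    have key : |xi N (x 0)| ≤ 66 / 2 ^ n ∧ |xi N (x 1)| ≤ 66 / 2 ^ n := by
      by_contra hc
      have k1 : th n (xi N (x 0)) (xi N (x 1)) = 0 := by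
        by_contra hne
        exact hc (supp_of (hth n) hne)
      have k2 : VA n (xi N (x 0)) (xi N (x 1)) = 0 := by
        by_contra hne
        exact hc (supp_of (hVA n) hne)
      have k3 : VB n (xi N (x 0)) (xi N (x 1)) = 0 := by
        by_contra hne
        exact hc (supp_of (hVB n) hne)
      rcases h with h | h
      · apply h
        unfold ee
        rw [k1]
        funext i
        fin_cases i <;> rfl
      · apply h
        unfold dd
        rw [k2, k3]
        funext i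
        fin_cases i <;> rfl
    exact key

end Pool.Agent.Q137.SP
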